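import Mathlib

/-!
# Average sensitivity of polynomial threshold functions: the recursion
-/

set_option autoImplicit false

namespace Pool.Agent.Helper1.PT

open Finset

variable {n : ℕ}

/-- flipping the coordinate `j` -/
def fl (j : Fin n) (x : Fin n → Bool) : Fin n → Bool := Function.update x j (!x j)

/-- the sign of a bit -/
def sg (b : Bool) : ℝ := if b then 1 else -1

lemma sg_not (b : Bool) : sg (!b) = -sg b := by
  cases b <;> simp [sg]

lemma sg_sq (b : Bool) : sg b * sg b = 1 := by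
  cases b <;> simp [sg]

lemma fl_self (j : Fin n) (x : Fin n → Bool) : fl j x j = !x j := by
  simp [fl]

lemma fl_ne {i j : Fin n} (h : i ≠ j) (x : Fin n → Bool) : fl j x i = x i := by
  simp [fl, h]

lemma fl_fl (j : Fin n) (x : Fin n → Bool) : fl j (fl j x) = x := by
  funext i
  by_cases h : i = j
  · subst h
    rw [fl_self, fl_self, Bool.not_not]
  · rw [fl_ne h, fl_ne h]

lemma fl_comm (i j : Fin n) (x : Fin n → Bool) : fl i (fl j x) = fl j (fl i x) := by
  by_cases hij : i = j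
  · rw [hij]
  funext l
  by_cases hi : l = i
  · subst hi
    rw [fl_self, fl_ne hij, fl_ne hij, fl_self]
  · by_cases hj : l = j
    · subst hj
      rw [fl_ne hi, fl_self, fl_self, fl_ne hi]
    · rw [fl_ne hi, fl_ne hj, fl_ne hj, fl_ne hi]

lemma sum_fl (j : Fin n) (h : (Fin n → Bool) → ℝ) : ∑ x, h (fl j x) = ∑ x, h x :=
  Fintype.sum_equiv ⟨fl j, fl j, fl_fl j, fl_fl j⟩ _ _ fun _ => rfl

/-- the number of the points where `F` is sensitive at `j` -/
noncomputable def S (F : (Fin n → Bool) → ℝ) (j : Fin n) : ℝ :=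
  ∑ x, if F x ≠ F (fl j x) then 1 else 0

lemma S_nonneg (F : (Fin n → Bool) → ℝ) (j : Fin n) : 0 ≤ S F j :=
  sum_nonneg fun x _ => by split_ifs <;> norm_num

lemma sq_diff {a b : ℝ} (ha : a = 1 ∨ a = -1) (hb : b = 1 ∨ b = -1) :
    (a - b) ^ 2 = 4 * if a ≠ b then 1 else 0 := by
  rcases ha with rfl | rfl <;> rcases hb with rfl | rfl <;> norm_num

variable {F : (Fin n → Bool) → ℝ} {G : Fin n → (Fin n → Bool) → ℝ}

lemma S_eq (hF : ∀ x, F x = 1 ∨ F x = -1) (hGi : ∀ i x, G i (fl i x) = G i x)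
    (hFG : ∀ i x, F x ≠ F (fl i x) → F x * sg (x i) = G i x) (hG : ∀ i x, G i x = 1 ∨ G i x = -1)
    (j : Fin n) : S F j = ∑ x, F x * (sg (x j) * G j x) := by
  have h1 : ∑ x, F (fl j x) * (sg (fl j x j) * G j (fl j x)) = ∑ x, F x * (sg (x j) * G j x) :=
    sum_fl j fun x => F x * (sg (x j) * G j x)
  have h2 : ∀ x, F x * (sg (x j) * G j x) + F (fl j x) * (sg (fl j x j) * G j (fl j x)) =
      2 * if F x ≠ F (fl j x) then 1 else 0 := by
    intro x
    rw [fl_self, sg_not, hGi]
    by_cases h : F x ≠ F (fl j x)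
    · rw [if_pos h]
      have e1 : F (fl j x) = -F x := by
        rcases hF x with h3 | h3 <;> rcases hF (fl j x) with h4 | h4
        · exact absurd (h3.trans h4.symm) h
        · rw [h3, h4]
        · rw [h3, h4, neg_neg]
        · exact absurd (h3.trans h4.symm) h
      rw [e1, ← hFG j x h]
      have e2 := sg_sq (x j)
      have e3 : F x * F x = 1 := by
        rcases hF x with h3 | h3 <;> rw [h3] <;> norm_num
      linear_combination 2 * F x * F x * e2 + 2 * e3
    · rw [if_neg h]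
      rw [not_not] at h
      rw [← h]
      ring
  have h3 : ∑ x, F x * (sg (x j) * G j x) + ∑ x, F (fl j x) * (sg (fl j x j) * G j (fl j x)) =
      2 * S F j := by
    rw [← sum_add_distrib, sum_congr rfl fun x _ => h2 x, ← mul_sum]
    rfl
  linarith

lemma cross (hG : ∀ i x, G i x = 1 ∨ G i x = -1) (hGi : ∀ i x, G i (fl i x) = G i x)
    {i j : Fin n} (hij : i ≠ j) :
    ∑ x, (sg (x i) * G i x) * (sg (x j) * G j x) ≤ (S (G i) j + S (G j) i) / 2 := by
  set h : (Fin n → Bool) → ℝ := fun x => (sg (x i) * G i x) * (sg (x j) * G j x) with hh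
  have e1 : ∑ x, h (fl j x) = ∑ x, h x := sum_fl j h
  have e2 : ∑ x, h (fl i x) = ∑ x, h x := sum_fl i h
  have e3 : ∑ x, h (fl i (fl j x)) = ∑ x, h x :=
    (sum_fl j fun x => h (fl i x)).trans e2
  have key : ∀ x, h x + h (fl j x) + h (fl i x) + h (fl i (fl j x)) ≤
      2 * ((if G i x ≠ G i (fl j x) then 1 else 0) + if G j x ≠ G j (fl i x) then 1 else 0) := by
    intro x
    have f1 : G j (fl i (fl j x)) = G j (fl i x) := by
      rw [fl_comm, hGi]
    have f2 : G i (fl i (fl j x)) = G i (fl j x) := hGi i _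
    simp only [hh]
    rw [f1, f2, hGi j, hGi i, fl_ne hij, fl_self, fl_self, fl_ne hij.symm, fl_self, fl_ne hij,
      fl_ne hij.symm, fl_self, sg_not, sg_not]
    have q1 := sq_diff (hG i x) (hG i (fl j x))
    have q2 := sq_diff (hG j x) (hG j (fl i x))
    have q3 : (sg (x i) * sg (x j)) ^ 2 = 1 := by
      have := sg_sq (x i)
      have := sg_sq (x j)
      rw [mul_pow, sq, sq]
      simp [*]
    set a := G i x
    set a' := G i (fl j x)
    set b := G j x
    set b' := G j (fl i x)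
    set s := sg (x i)
    set t := sg (x j)
    have q4 : 0 ≤ ((s * t) * (a - a') - (b - b')) ^ 2 := sq_nonneg _
    have q5 : ((s * t) * (a - a') - (b - b')) ^ 2 =
        (s * t) ^ 2 * (a - a') ^ 2 - 2 * ((s * t) * (a - a') * (b - b')) + (b - b') ^ 2 := by ring
    rw [q5, q3, q1, q2] at q4
    have q6 : s * a * (t * b) + s * a' * (-t * b) + -s * a * (t * b') + -s * a' * (-t * b') =
        (s * t) * (a - a') * (b - b') := by ring
    rw [q6]
    linarith
  have h4 : ∑ x, (h x + h (fl j x) + h (fl i x) + h (fl i (fl j x))) ≤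
      ∑ x, 2 * ((if G i x ≠ G i (fl j x) then (1 : ℝ) else 0) +
        if G j x ≠ G j (fl i x) then 1 else 0) :=
    sum_le_sum fun x _ => key x
  rw [sum_add_distrib, sum_add_distrib, sum_add_distrib, e1, e2, e3, ← mul_sum, sum_add_distrib]
    at h4
  have h5 : ∑ x, (if G i x ≠ G i (fl j x) then (1 : ℝ) else 0) = S (G i) j := rfl
  have h6 : ∑ x, (if G j x ≠ G j (fl i x) then (1 : ℝ) else 0) = S (G j) i := rfl
  rw [h5, h6] at h4
  linarith

/-- **The recursion.** -/
theorem key (hF : ∀ x, F x = 1 ∨ F x = -1) (hG : ∀ i x, G i x = 1 ∨ G i x = -1)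
    (hGi : ∀ i x, G i (fl i x) = G i x)
    (hFG : ∀ i x, F x ≠ F (fl i x) → F x * sg (x i) = G i x) :
    (∑ j, S F j) ^ 2 ≤ 2 ^ n * (n * 2 ^ n + ∑ i, ∑ j, S (G i) j) := by
  have h1 : ∑ j, S F j = ∑ x, F x * ∑ j, sg (x j) * G j x := by
    rw [sum_congr rfl fun j _ => S_eq hF hGi hFG hG j, sum_comm]
    exact sum_congr rfl fun x _ => (mul_sum _ _ _).symm
  have hc : (Fintype.card (Fin n → Bool) : ℝ) = 2 ^ n := by
    rw [Fintype.card_fun, Fintype.card_bool, Fintype.card_fin]
    push_cast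
    rfl
  have h2 : ∑ x, F x ^ 2 = 2 ^ n := by
    rw [sum_congr rfl fun x _ => show F x ^ 2 = 1 by
      rcases hF x with h | h <;> rw [h] <;> norm_num, sum_const, card_univ, nsmul_eq_mul, mul_one,
      hc]
  have h3 : ∑ x, (∑ j, sg (x j) * G j x) ^ 2 ≤ n * 2 ^ n + ∑ i, ∑ j, S (G i) j := by
    have e1 : ∑ x, (∑ j, sg (x j) * G j x) ^ 2 =
        ∑ i, ∑ j, ∑ x, (sg (x i) * G i x) * (sg (x j) * G j x) := by
      rw [sum_congr rfl fun x _ => show (∑ j, sg (x j) * G j x) ^ 2 =
        ∑ i, ∑ j, (sg (x i) * G i x) * (sg (x j) * G j x) by rw [sq, sum_mul_sum]]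
      rw [sum_comm]
      exact sum_congr rfl fun i _ => sum_comm
    have e2 : ∀ i j, ∑ x, (sg (x i) * G i x) * (sg (x j) * G j x) ≤
        (if i = j then 2 ^ n else 0) + (S (G i) j + S (G j) i) / 2 := by
      intro i j
      by_cases hij : i = j
      · subst hij
        rw [if_pos rfl]
        have e3 : ∑ x, (sg (x i) * G i x) * (sg (x i) * G i x) = 2 ^ n := by
          rw [sum_congr rfl fun x _ => show (sg (x i) * G i x) * (sg (x i) * G i x) = 1 by
            have := sg_sq (x i)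
            rcases hG i x with h | h <;> rw [h] <;> linarith, sum_const, card_univ, nsmul_eq_mul,
            mul_one, hc]
        rw [e3]
        have := S_nonneg (G i) i
        linarith
      · rw [if_neg hij, zero_add]
        exact cross hG hGi hij
    rw [e1]
    refine (sum_le_sum fun i _ => sum_le_sum fun j _ => e2 i j).trans (le_of_eq ?_)
    simp only [sum_add_distrib, ← sum_div]
    have e4 : ∑ i : Fin n, ∑ j : Fin n, S (G j) i = ∑ i : Fin n, ∑ j : Fin n, S (G i) j := sum_comm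
    rw [e4]
    have e5 : ∑ i : Fin n, ∑ j : Fin n, (if i = j then (2 : ℝ) ^ n else 0) = n * 2 ^ n := by
      simp
    rw [e5]
    ring
  rw [h1]
  calc (∑ x, F x * ∑ j, sg (x j) * G j x) ^ 2 ≤
      (∑ x, F x ^ 2) * ∑ x, (∑ j, sg (x j) * G j x) ^ 2 := sum_mul_sq_le_sq_mul_sq _ _ _
    _ ≤ 2 ^ n * (n * 2 ^ n + ∑ i, ∑ j, S (G i) j) := by
        rw [h2]
        exact mul_le_mul_of_nonneg_left h3 (by positivity)

end Pool.Agent.Helper1.PT
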