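import Pool.Agent.Helper1.PT.Key

/-!
# Average sensitivity of polynomial threshold functions
-/

set_option autoImplicit false

namespace Pool.Agent.Helper1.PT

open Finset

variable {n : ℕ}

/-- the bit `i` as a real number -/
def bt (i : Fin n) : (Fin n → Bool) → ℝ := fun x => if x i then 1 else 0

/-- the affine functions of the bits -/
def Af (n : ℕ) : Submodule ℝ ((Fin n → Bool) → ℝ) :=
  Submodule.span ℝ (insert 1 (Set.range (bt (n := n))))

lemma one_mem : (1 : (Fin n → Bool) → ℝ) ∈ Af n := Submodule.subset_span (Set.mem_insert _ _)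

lemma bt_mem (i : Fin n) : bt i ∈ Af n :=
  Submodule.subset_span (Set.mem_insert_of_mem _ ⟨i, rfl⟩)

/-- fixing the coordinate `j` -/
def fx (j : Fin n) (b : Bool) : ((Fin n → Bool) → ℝ) →ₐ[ℝ] ((Fin n → Bool) → ℝ) :=
  Pi.algHom ℝ _ fun x => Pi.evalAlgHom ℝ (fun _ => ℝ) (Function.update x j b)

lemma fx_apply (j : Fin n) (b : Bool) (f : (Fin n → Bool) → ℝ) (x : Fin n → Bool) :
    fx j b f x = f (Function.update x j b) := rfl

lemma fx_bt_self (j : Fin n) (b : Bool) : fx j b (bt j) = (if b then (1 : ℝ) else 0) • 1 := by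
  funext x
  rw [fx_apply]
  simp [bt]

lemma fx_bt_ne {i j : Fin n} (h : i ≠ j) (b : Bool) : fx j b (bt i) = bt i := by
  funext x
  rw [fx_apply]
  simp [bt, h]

lemma fx_af (j : Fin n) (b : Bool) : (Af n).map (fx j b).toLinearMap ≤ Af n := by
  unfold Af
  rw [Submodule.map_span, Submodule.span_le]
  rintro _ ⟨g, hg, rfl⟩
  rcases hg with rfl | ⟨i, rfl⟩
  · change fx j b 1 ∈ Af n
    rw [map_one]
    exact one_mem
  · change fx j b (bt i) ∈ Af n
    by_cases hi : i = j
    · subst hi
      rw [fx_bt_self]
      exact Submodule.smul_mem _ _ one_mem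
    · rw [fx_bt_ne hi]
      exact bt_mem i

lemma fx_pow (j : Fin n) (b : Bool) (d : ℕ) {f : (Fin n → Bool) → ℝ} (hf : f ∈ Af n ^ d) :
    fx j b f ∈ Af n ^ d := by
  have h1 : (Af n ^ d).map (fx j b).toLinearMap ≤ Af n ^ d := by
    rw [Submodule.map_pow]
    exact pow_le_pow_left' (fx_af j b) d
  exact h1 ⟨f, hf, rfl⟩

/-- the derivative in the direction `j` -/
def dr (j : Fin n) (f : (Fin n → Bool) → ℝ) : (Fin n → Bool) → ℝ := fx j true f - fx j false f

lemma dr_mul (j : Fin n) (u v : (Fin n → Bool) → ℝ) :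
    dr j (u * v) = dr j u * fx j true v + fx j false u * dr j v := by
  unfold dr
  rw [map_mul, map_mul]
  ring

lemma dr_af (j : Fin n) {v : (Fin n → Bool) → ℝ} (hv : v ∈ Af n) :
    dr j v ∈ (1 : Submodule ℝ ((Fin n → Bool) → ℝ)) := by
  have hlin : ∀ (a : ℝ) (u v : (Fin n → Bool) → ℝ), dr j (a • u + v) = a • dr j u + dr j v := by
    intro a u v
    unfold dr
    rw [map_add, map_add, map_smul, map_smul]
    module
  induction hv using Submodule.span_induction with
  | mem g hg =>
    rcases hg with rfl | ⟨i, rfl⟩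
    · unfold dr
      rw [map_one, map_one, sub_self]
      exact Submodule.zero_mem _
    · by_cases hi : i = j
      · subst hi
        unfold dr
        rw [fx_bt_self, fx_bt_self]
        refine Submodule.sub_mem _ (Submodule.smul_mem _ _ (Submodule.one_le.1 le_rfl))
          (Submodule.smul_mem _ _ (Submodule.one_le.1 le_rfl))
      · unfold dr
        rw [fx_bt_ne hi, fx_bt_ne hi, sub_self]
        exact Submodule.zero_mem _
  | zero =>
    unfold dr
    rw [map_zero, map_zero, sub_self]
    exact Submodule.zero_mem _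
  | add u v _ _ hu hv =>
    have := hlin 1 u v
    rw [one_smul, one_smul] at this
    rw [this]
    exact Submodule.add_mem _ hu hv
  | smul a u _ hu =>
    have := hlin a u 0
    rw [add_zero] at this
    rw [this]
    refine Submodule.add_mem _ (Submodule.smul_mem _ _ hu) ?_
    unfold dr
    rw [map_zero, map_zero, sub_self]
    exact Submodule.zero_mem _

lemma dr_pow (j : Fin n) (d : ℕ) : ∀ f ∈ Af n ^ (d + 1), dr j f ∈ Af n ^ d := by
  induction d with
  | zero =>
    intro f hf
    rw [zero_add, pow_one] at hf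
    rw [pow_zero]
    exact dr_af j hf
  | succ d ih =>
    intro f hf
    rw [pow_succ] at hf
    refine Submodule.mul_induction_on hf (fun u hu v hv => ?_) fun u v hu hv => ?_
    · rw [dr_mul]
      refine Submodule.add_mem _ ?_ ?_
      · rw [pow_succ]
        refine Submodule.mul_mem_mul (ih u hu) ?_
        have := fx_pow j true 1 (f := v) (by rwa [pow_one])
        rwa [pow_one] at this
      · rw [← mul_one (Af n ^ (d + 1))]
        exact Submodule.mul_mem_mul (fx_pow j false (d + 1) hu) (dr_af j hv)
    · have : dr j (u + v) = dr j u + dr j v := by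
        unfold dr
        rw [map_add, map_add]
        ring
      rw [this]
      exact Submodule.add_mem _ hu hv

/-- the sign function -/
noncomputable def sn (f : (Fin n → Bool) → ℝ) : (Fin n → Bool) → ℝ :=
  fun x => if 0 ≤ f x then 1 else -1

lemma sn_pm (f : (Fin n → Bool) → ℝ) (x : Fin n → Bool) : sn f x = 1 ∨ sn f x = -1 := by
  unfold sn
  split_ifs
  · exact Or.inl rfl
  · exact Or.inr rfl

lemma sens_aux (d : ℕ) : ∀ f ∈ Af n ^ d,
    ∑ j, S (sn f) j ≤ 2 * (n : ℝ) ^ (1 - 1 / (2 : ℝ) ^ d) * 2 ^ n := by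
  induction d with
  | zero =>
    intro f hf
    rw [pow_zero, Submodule.mem_one] at hf
    obtain ⟨c, rfl⟩ := hf
    have h1 : ∀ j : Fin n, S (sn (algebraMap ℝ ((Fin n → Bool) → ℝ) c)) j = 0 := by
      intro j
      unfold S
      refine sum_eq_zero fun x _ => ?_
      have h2 : sn (algebraMap ℝ ((Fin n → Bool) → ℝ) c) x =
          sn (algebraMap ℝ ((Fin n → Bool) → ℝ) c) (fl j x) := rfl
      rw [if_neg (not_not.2 h2)]
    rw [sum_congr rfl fun j _ => h1 j, sum_const_zero]
    positivity
  | succ d ih =>
    intro f hf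
    rcases Nat.eq_zero_or_pos n with hn | hn
    · subst hn
      rw [univ_eq_empty, sum_empty]
      positivity
    have hn1 : (1 : ℝ) ≤ n := by exact_mod_cast hn
    have hn0 : (0 : ℝ) < n := by linarith
    have h1 := key (F := sn f) (G := fun j => sn (dr j f)) (sn_pm f) (fun j => sn_pm _) ?_ ?_
    · set a : ℝ := (n : ℝ) ^ (1 - 1 / (2 : ℝ) ^ (d + 1)) with ha
      have ha0 : 0 ≤ a := by positivity
      have h2 : (n : ℝ) * (n : ℝ) ^ (1 - 1 / (2 : ℝ) ^ d) = a ^ 2 := by
        rw [ha, ← Real.rpow_natCast _ 2, ← Real.rpow_mul hn0.le]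
        nth_rewrite 1 [← Real.rpow_one (n : ℝ)]
        rw [← Real.rpow_add hn0]
        congr 1
        rw [pow_succ]
        have : (2 : ℝ) ^ d ≠ 0 := by positivity
        field_simp
        push_cast
        ring
      have h3 : (n : ℝ) ≤ a ^ 2 := by
        rw [← h2]
        refine le_mul_of_one_le_right hn0.le (Real.one_le_rpow hn1 ?_)
        have : (1 : ℝ) ≤ 2 ^ d := one_le_pow₀ (by norm_num)
        rw [sub_nonneg, div_le_one (by positivity)]
        exact this
      have h4 : ∑ i, ∑ j, S (sn (dr i f)) j ≤ n * (2 * (n : ℝ) ^ (1 - 1 / (2 : ℝ) ^ d) * 2 ^ n) := by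
        refine (sum_le_sum fun i _ => ih (dr i f) (dr_pow i d f hf)).trans (le_of_eq ?_)
        rw [sum_const, card_univ, Fintype.card_fin, nsmul_eq_mul]
      have h5 : (∑ j, S (sn f) j) ^ 2 ≤ (2 * a * 2 ^ n) ^ 2 := by
        refine h1.trans ?_
        calc (2 : ℝ) ^ n * (n * 2 ^ n + ∑ i, ∑ j, S (sn (dr i f)) j) ≤
            2 ^ n * (a ^ 2 * 2 ^ n + n * (2 * (n : ℝ) ^ (1 - 1 / (2 : ℝ) ^ d) * 2 ^ n)) := by
              gcongr
          _ = 2 ^ n * (a ^ 2 * 2 ^ n + 2 * (n * (n : ℝ) ^ (1 - 1 / (2 : ℝ) ^ d)) * 2 ^ n) := by ring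
          _ = 3 * (a * 2 ^ n) ^ 2 := by
              rw [h2]
              ring
          _ ≤ (2 * a * 2 ^ n) ^ 2 := by
              have : 0 ≤ (a * 2 ^ n) ^ 2 := sq_nonneg _
              nlinarith
      exact abs_le_of_sq_le_sq' h5 (by positivity) |>.2
    · intro j x
      have h2 : dr j f (fl j x) = dr j f x := by
        unfold dr
        rw [Pi.sub_apply, Pi.sub_apply, fx_apply, fx_apply, fx_apply, fx_apply]
        unfold fl
        rw [Function.update_idem, Function.update_idem]
      unfold sn
      rw [h2]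
    · intro j x hx
      have e1 : dr j f x = f (Function.update x j true) - f (Function.update x j false) := rfl
      unfold sn at hx ⊢
      rw [e1]
      unfold fl at hx
      cases hb : x j with
      | true =>
        have e2 : Function.update x j true = x := by
          rw [← hb, Function.update_eq_self]
        rw [hb, Bool.not_true] at hx
        rw [e2]
        set p := f x
        set q := f (Function.update x j false)
        by_cases hp : 0 ≤ p
        · by_cases hq : 0 ≤ q
          · rw [if_pos hp, if_pos hq] at hx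
            exact absurd rfl hx
          · rw [if_pos hp, if_pos (by linarith)]
            simp [sg]
        · by_cases hq : 0 ≤ q
          · rw [if_neg hp, if_neg (by linarith)]
            simp [sg]
          · rw [if_neg hp, if_neg hq] at hx
            exact absurd rfl hx
      | false =>
        have e2 : Function.update x j false = x := by
          rw [← hb, Function.update_eq_self]
        rw [hb, Bool.not_false] at hx
        rw [e2]
        set p := f x
        set q := f (Function.update x j true)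
        by_cases hp : 0 ≤ p
        · by_cases hq : 0 ≤ q
          · rw [if_pos hp, if_pos hq] at hx
            exact absurd rfl hx
          · rw [if_pos hp, if_neg (by linarith)]
            simp [sg]
        · by_cases hq : 0 ≤ q
          · rw [if_neg hp, if_pos (by linarith)]
            simp [sg]
          · rw [if_neg hp, if_neg hq] at hx
            exact absurd rfl hx

lemma eval_mem {d : ℕ} (P : MvPolynomial (Fin n) ℝ) (hP : P.totalDegree ≤ d) :
    (fun x : Fin n → Bool => MvPolynomial.eval (fun i => if x i then (1 : ℝ) else 0) P) ∈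
      Af n ^ d := by
  classical
  have hmono : ∀ e ≤ d, Af n ^ e ≤ Af n ^ d := fun e he =>
    pow_le_pow_right' (Submodule.one_le.2 one_mem) he
  have hprod : ∀ (s : Finset (Fin n)) (m : Fin n → ℕ),
      (∏ i ∈ s, bt i ^ m i) ∈ Af n ^ (∑ i ∈ s, m i) := by
    intro s m
    induction s using Finset.induction_on with
    | empty =>
      rw [prod_empty, sum_empty, pow_zero]
      exact Submodule.one_le.1 le_rfl
    | insert a s ha ih =>
      rw [prod_insert ha, sum_insert ha, pow_add]
      exact Submodule.mul_mem_mul (Submodule.pow_mem_pow _ (bt_mem a) _) ih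
  have h1 : (fun x : Fin n → Bool => MvPolynomial.eval (fun i => if x i then (1 : ℝ) else 0) P) =
      ∑ m ∈ P.support, P.coeff m • ∏ i ∈ m.support, bt i ^ m i := by
    funext x
    rw [MvPolynomial.eval_eq, Finset.sum_apply]
    refine sum_congr rfl fun m _ => ?_
    rw [Pi.smul_apply, smul_eq_mul, prod_apply]
    rfl
  rw [h1]
  refine Submodule.sum_mem _ fun m hm => Submodule.smul_mem _ _ (hmono _ ?_ (hprod _ _))
  exact (MvPolynomial.le_totalDegree hm).trans hP

/-- **Average sensitivity of polynomial threshold functions.** -/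
theorem sens_ptf (n d : ℕ) (P : MvPolynomial (Fin n) ℝ) (hd : P.totalDegree ≤ d)
    (g : (Fin n → Bool) → Bool)
    (hg : ∀ x, g x = true ↔ 0 ≤ MvPolynomial.eval (fun i => if x i then (1 : ℝ) else 0) P) :
    ((∑ j, #{x : Fin n → Bool | g x ≠ g (Function.update x j (!x j))} : ℕ) : ℝ) ≤
      2 * (n : ℝ) ^ (1 - 1 / (2 : ℝ) ^ d) * 2 ^ n := by
  set f : (Fin n → Bool) → ℝ :=
    fun x => MvPolynomial.eval (fun i => if x i then (1 : ℝ) else 0) P with hf
  refine le_trans (le_of_eq ?_) (sens_aux d f (eval_mem P hd))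
  push_cast
  refine sum_congr rfl fun j _ => ?_
  unfold S
  rw [card_filter]
  push_cast
  refine sum_congr rfl fun x _ => ?_
  have h1 : ∀ y, sn f y = if g y then 1 else -1 := by
    intro y
    unfold sn
    by_cases h : 0 ≤ f y
    · rw [if_pos h, if_pos ((hg y).2 h)]
    · rw [if_neg h, if_neg (fun h' => h ((hg y).1 h'))]
  have h2 : (sn f x ≠ sn f (fl j x)) ↔ g x ≠ g (Function.update x j (!x j)) := by
    rw [h1, h1]
    change _ ↔ g x ≠ g (fl j x)
    cases g x <;> cases g (fl j x) <;> norm_num
  by_cases h : g x ≠ g (Function.update x j (!x j))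
  · rw [if_pos h, if_pos (h2.2 h)]
  · rw [if_neg h, if_neg (fun h' => h (h2.1 h'))]

end Pool.Agent.Helper1.PT
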